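import Pool.Agent.LibNV73.Defs

/-! Row Q6: the logarithmic sum. 40 min.
Plan. `Psi G t / t → 1 / 2` (`Psi_tendsto`, LibGWa/V2: look at its exact form). Choose `q > 1` close to `1` and `ε'` much
smaller than `log q`, `x0` with `|Psi t - t / 2| ≤ ε' t` for `t ≥ x0`. With `J = ⌊log (y / x) / log q⌋` the disjoint blocks
`x q^j < len p ≤ x q^(j+1)`, `j < J`, contribute at least
`(Psi (x q^(j+1)) - Psi (x q^j)) / (x q^(j+1)) ≥ (1/2 - ε') - (1/2 + ε') / q =: β`, and
`J β ≥ (log (y / x) / log q - 1) β ≥ (1/2 - ε) log (y / x) - 1` (`β ≤ 1/2`, `(1 - 1/q) / log q → 1` as `q → 1`).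
`w p / len p ≥ 0`. -/

open MeasureTheory Set Filter Topology FG33 SC35
open scoped ContDiff

namespace NV73

open GWin EM73

open Classical in
/-- the sum over `x < len p ≤ y` -/
private noncomputable def Q6_S (G : Geo) (x y : ℝ) : ℝ :=
  ∑ p ∈ ball G y with x < G.len p, w G p / G.len p

private theorem Q6_nonneg {G : Geo} {κ : ℝ} (h : Ok G κ) (x y : ℝ) : 0 ≤ Q6_S G x y :=
  Finset.sum_nonneg fun p _ => div_nonneg (w_pos h p).le (h.pos p).le

private theorem Q6_mono {G : Geo} {κ : ℝ} (h : Ok G κ) {x y z : ℝ} (hyz : y ≤ z) :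
    Q6_S G x y ≤ Q6_S G x z := by
  classical
  unfold Q6_S
  refine Finset.sum_le_sum_of_subset_of_nonneg ?_ fun p _ _ =>
    div_nonneg (w_pos h p).le (h.pos p).le
  exact Finset.filter_subset_filter _ (ball_mono h hyz)

private theorem Q6_add {G : Geo} {κ : ℝ} (h : Ok G κ) {x y z : ℝ} (hxy : x ≤ y) (hyz : y ≤ z) :
    Q6_S G x y + Q6_S G y z = Q6_S G x z := by
  classical
  unfold Q6_S
  rw [← Finset.sum_union]
  · refine Finset.sum_congr ?_ fun _ _ => rfl
    ext p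
    simp only [Finset.mem_union, Finset.mem_filter, mem_ball h]
    constructor
    · rintro (⟨h1, h2⟩ | ⟨h1, h2⟩)
      · exact ⟨h1.trans hyz, h2⟩
      · exact ⟨h1, hxy.trans_lt h2⟩
    · rintro ⟨h1, h2⟩
      rcases le_or_gt (G.len p) y with h3 | h3
      · exact Or.inl ⟨h3, h2⟩
      · exact Or.inr ⟨h1, h3⟩
  · rw [Finset.disjoint_left]
    intro p hp hp'
    rw [Finset.mem_filter, mem_ball h] at hp hp'
    exact absurd hp.1 (not_le.2 hp'.2)

private theorem Q6_block {G : Geo} {κ : ℝ} (h : Ok G κ) {z q e : ℝ} (hz : 0 < z) (hq : 1 ≤ q)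
    (h1 : Psi G z ≤ (1 / 2 + e) * z) (h2 : (1 / 2 - e) * (z * q) ≤ Psi G (z * q)) :
    (1 / 2 - e) - (1 / 2 + e) / q ≤ Q6_S G z (z * q) := by
  classical
  have hq0 : 0 < q := by linarith
  have hzq : 0 < z * q := mul_pos hz hq0
  have hle : z ≤ z * q := by nlinarith
  have h3 : Psi G (z * q) - Psi G z = ∑ p ∈ ball G (z * q) with z < G.len p, w G p := by
    unfold Psi
    rw [sub_eq_iff_eq_add, ← Finset.sum_filter_add_sum_filter_not (ball G (z * q))
      (fun p => z < G.len p)]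
    congr 1
    refine Finset.sum_congr ?_ fun _ _ => rfl
    ext p
    simp only [Finset.mem_filter, mem_ball h, not_lt]
    exact ⟨fun h' => h'.2, fun h' => ⟨h'.trans hle, h'⟩⟩
  have h4 : (Psi G (z * q) - Psi G z) / (z * q) ≤ Q6_S G z (z * q) := by
    rw [h3, Finset.sum_div]
    unfold Q6_S
    refine Finset.sum_le_sum fun p hp => ?_
    rw [Finset.mem_filter, mem_ball h] at hp
    exact div_le_div_of_nonneg_left (w_pos h p).le (h.pos p) hp.1
  refine le_trans ?_ h4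
  rw [le_div_iff₀ hzq]
  have h5 : ((1 / 2 - e) - (1 / 2 + e) / q) * (z * q) =
      (1 / 2 - e) * (z * q) - (1 / 2 + e) * z := by
    field_simp
  rw [h5]
  linarith

private theorem Q6_blocks {G : Geo} {κ : ℝ} (h : Ok G κ) {x0 q e : ℝ} (hx0 : 1 ≤ x0)
    (hq : 1 ≤ q)
    (hP : ∀ t, x0 ≤ t → (1 / 2 - e) * t ≤ Psi G t ∧ Psi G t ≤ (1 / 2 + e) * t)
    {x : ℝ} (hx : x0 ≤ x) (J : ℕ) :
    (J : ℝ) * ((1 / 2 - e) - (1 / 2 + e) / q) ≤ Q6_S G x (x * q ^ J) := by
  have hx1 : 0 < x := by linarith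
  induction J with
  | zero =>
    rw [Nat.cast_zero, zero_mul]
    exact Q6_nonneg h _ _
  | succ J ih =>
    have hqJ : 1 ≤ q ^ J := one_le_pow₀ hq
    have hz : x ≤ x * q ^ J := by nlinarith
    have hz2 : x * q ^ J ≤ x * q ^ (J + 1) := by
      rw [pow_succ, ← mul_assoc]
      have : 0 < x * q ^ J := by linarith
      nlinarith
    have hb := Q6_block (z := x * q ^ J) (q := q) (e := e) h (by linarith) hq
      (hP _ (hx.trans hz)).2 (hP _ (hx.trans (hz.trans (by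
        rw [pow_succ, ← mul_assoc] at hz2; exact hz2)))).1
    rw [← Q6_add h hz hz2]
    have e1 : x * q ^ (J + 1) = x * q ^ J * q := by rw [pow_succ, mul_assoc]
    rw [e1]
    push_cast
    linarith

private theorem Q6_exp {u : ℝ} (hu : 0 ≤ u) : Real.exp (-u) ≤ 1 - u + u ^ 2 / 2 := by
  have h1 := Real.quadratic_le_exp_of_nonneg hu
  have h2 : 0 < Real.exp u := Real.exp_pos u
  rw [Real.exp_neg, inv_le_iff_one_le_mul₀ h2]
  have h3 : 0 ≤ 1 - u + u ^ 2 / 2 := by nlinarith [sq_nonneg (u - 1)]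
  have h4 : (1 - u + u ^ 2 / 2) * (1 + u + u ^ 2 / 2) ≤ (1 - u + u ^ 2 / 2) * Real.exp u :=
    mul_le_mul_of_nonneg_left h1 h3
  have h5 : 1 ≤ (1 - u + u ^ 2 / 2) * (1 + u + u ^ 2 / 2) := by nlinarith [sq_nonneg (u ^ 2)]
  linarith

open Classical in
theorem log_sum {G : Geo} {κ : ℝ} (h : Ok G κ) (hS : SumRule G) {ε : ℝ} (hε : 0 < ε) :
    ∃ x0 : ℝ, 1 ≤ x0 ∧ ∀ x y : ℝ, x0 ≤ x → x ≤ y →
      (1 / 2 - ε) * Real.log (y / x) - 1 ≤ ∑ p ∈ ball G y with x < G.len p, w G p / G.len p := by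
  rcases le_or_gt (1 / 2) ε with hbig | hsmall
  · refine ⟨1, le_refl _, fun x y hx hxy => ?_⟩
    have h0 : 0 ≤ Q6_S G x y := Q6_nonneg h x y
    have hx0 : 0 < x := by linarith
    have hl : 0 ≤ Real.log (y / x) := Real.log_nonneg ((one_le_div hx0).2 hxy)
    have h1 : (1 / 2 - ε) * Real.log (y / x) ≤ 0 :=
      mul_nonpos_of_nonpos_of_nonneg (by linarith) hl
    have h2 : (1 / 2 - ε) * Real.log (y / x) - 1 ≤ Q6_S G x y := by linarith
    exact h2
  · set e : ℝ := ε ^ 2 / 8 with he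
    have he0 : 0 < e := by positivity
    have hT := Psi_tendsto h hS
    have hev : ∀ᶠ t : ℝ in atTop, (1 / 2 - e) * t ≤ Psi G t ∧ Psi G t ≤ (1 / 2 + e) * t := by
      have h1 := hT.eventually (Icc_mem_nhds (show (1 / 2 : ℝ) - e < 1 / 2 by linarith)
        (show (1 / 2 : ℝ) < 1 / 2 + e by linarith))
      filter_upwards [h1, eventually_gt_atTop 0] with t ht ht0
      exact ⟨(le_div_iff₀ ht0).1 ht.1, (div_le_iff₀ ht0).1 ht.2⟩
    obtain ⟨a, ha⟩ := eventually_atTop.1 hev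
    refine ⟨max a 1, le_max_right _ _, fun x y hx hxy => ?_⟩
    have hx1 : 1 ≤ x := (le_max_right _ _).trans hx
    have hx0 : 0 < x := by linarith
    have hy0 : 0 < y := by linarith
    set q : ℝ := Real.exp ε with hq
    have hq1 : 1 ≤ q := Real.one_le_exp hε.le
    set J : ℕ := ⌊Real.log (y / x) / ε⌋₊ with hJ
    have hl : 0 ≤ Real.log (y / x) := Real.log_nonneg ((one_le_div hx0).2 hxy)
    have hJle : (J : ℝ) * ε ≤ Real.log (y / x) := by
      have := Nat.floor_le (div_nonneg hl hε.le)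
      rwa [le_div_iff₀ hε] at this
    have hJge : Real.log (y / x) - ε ≤ (J : ℝ) * ε := by
      have := Nat.lt_floor_add_one (Real.log (y / x) / ε)
      rw [div_lt_iff₀ hε] at this
      rw [← hJ] at this
      linarith
    have hxqy : x * q ^ J ≤ y := by
      have h1 : q ^ J = Real.exp ((J : ℝ) * ε) := by
        rw [hq, ← Real.exp_nat_mul]
      have h2 : Real.exp ((J : ℝ) * ε) ≤ y / x := by
        rw [← Real.exp_log (show (0 : ℝ) < y / x by positivity)]
        exact Real.exp_le_exp.2 hJle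
      rw [h1]
      calc x * Real.exp ((J : ℝ) * ε) ≤ x * (y / x) := mul_le_mul_of_nonneg_left h2 hx0.le
        _ = y := by field_simp
    have hmain := (Q6_blocks h (le_max_right a 1) hq1
      (fun t ht => ha t ((le_max_left _ _).trans ht)) hx J).trans (Q6_mono h hxqy)
    have hβ : ε * (1 / 2 - ε) ≤ (1 / 2 - e) - (1 / 2 + e) / q := by
      have h1 : (1 / 2 + e) / q = (1 / 2 + e) * Real.exp (-ε) := by
        rw [hq, Real.exp_neg, div_eq_mul_inv]
      have h2 := Q6_exp hε.le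
      have h3 : (1 / 2 + e) * Real.exp (-ε) ≤ (1 / 2 + e) * (1 - ε + ε ^ 2 / 2) :=
        mul_le_mul_of_nonneg_left h2 (by linarith)
      rw [h1]
      have h4 : (1 / 2 + e) * (1 - ε + ε ^ 2 / 2) ≤ (1 / 2 - e) - ε * (1 / 2 - ε) := by
        rw [he]
        have : 0 < ε ^ 3 := by positivity
        nlinarith [sq_nonneg ε, mul_pos hε hε]
      linarith
    have h5 : (J : ℝ) * (ε * (1 / 2 - ε)) ≤ Q6_S G x y :=
      (mul_le_mul_of_nonneg_left hβ (Nat.cast_nonneg J)).trans hmain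
    have h6 : (1 / 2 - ε) * (Real.log (y / x) - ε) ≤ (1 / 2 - ε) * ((J : ℝ) * ε) :=
      mul_le_mul_of_nonneg_left hJge (by linarith)
    have h7 : (1 / 2 - ε) * ε ≤ 1 := by nlinarith
    have h8 : (1 / 2 - ε) * Real.log (y / x) - 1 ≤ Q6_S G x y := by nlinarith
    exact h8

end NV73
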