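import Pool.Agent.LibNV73.Defs

/-! Row Q1: the three error terms of the reduction, uniformly in the amplitude. 35 min.
Plan. `weyl_unif`: the proof of `weyl_term` (LibGWa/U2) gives the constant `(3 / (2 π)) ∫ |y| |tf a y| dy`, which is at
most a constant times `∫ |y| B / (1 + |y|)^4`; either copy the proof or change it so that the constant is explicit.
`refl_unif`: the proof of `refl_sum` (LibGWa/U3) uses only `|tf a y| ≤ B / (1 + |y|)^4`: the constant is
`B * ∑' n, 1 / (κ n + 1)^4` (for `B = 0` `tf a = 0`; or use `B + 1`). `sc_unif`: as `sc_iter` (LibGWa/U4), with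
`‖iteratedDeriv j a‖ ≤ B`: `2 / L * (1 / L ^ j * B) ≤ 2 * B`. -/

open MeasureTheory Set Filter Topology FG33 SC35
open scoped ContDiff

namespace NV73

open GWin EM73

private theorem Q1_weyl {a : ℝ → ℂ} (ha : IsAmp a) {L τ : ℝ} (hL : 1 ≤ L) (hτ : 1 ≤ τ) :
    |1 / (2 * Real.pi) * (∫ y in Ioi (0 : ℝ), hh (sc a L) τ y * y) -
      τ / (2 * Real.pi * L) * ∫ y, tf a y| ≤
        1 / (2 * Real.pi) * (3 * ∫ y, |y| * |tf a y|) / L := by
  set M := ∫ y, |y| * |tf a y| with hM
  have hM0 : 0 ≤ M := integral_nonneg fun y => by positivity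
  have hi := tf_int ha
  have hi1 := tf_int1 ha
  have hi2 : Integrable fun y => y * tf a y := by
    refine hi1.mono' (continuous_id.mul (tf_cont ha)).aestronglyMeasurable
      (Eventually.of_forall fun y => ?_)
    rw [Real.norm_eq_abs, abs_mul]
  have hL0 : 0 < L := by linarith
  -- the integrable functions
  have s1 : ∀ (g : ℝ → ℝ) (c : ℝ), ∫ y, g (L * (y - c)) = 1 / L * ∫ y, g y := by
    intro g c
    rw [integral_sub_right_eq_self (fun y => g (L * y)) c, Measure.integral_comp_mul_left,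
      abs_of_pos (by positivity), smul_eq_mul, one_div]
  have si1 : ∀ (g : ℝ → ℝ) (c : ℝ), Integrable g → Integrable fun y => g (L * (y - c)) := by
    intro g c hg
    exact (hg.comp_mul_left' hL0.ne').comp_sub_right c
  have s2 : ∀ (g : ℝ → ℝ) (c : ℝ), ∫ y, g (L * (-y - c)) = 1 / L * ∫ y, g y := by
    intro g c
    rw [integral_neg_eq_self (fun y => g (L * (y - c))) volume, s1]
  have si2 : ∀ (g : ℝ → ℝ) (c : ℝ), Integrable g → Integrable fun y => g (L * (-y - c)) := by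
    intro g c hg
    exact (si1 g c hg).comp_neg
  -- first integral
  have f1 : Integrable fun y => tf a (L * (y - τ)) * y := by
    have h1 := (si1 _ τ hi2).const_mul (1 / L)
    have h2 := (si1 _ τ hi).const_mul τ
    refine (h1.add h2).congr (Eventually.of_forall fun y => ?_)
    simp only [Pi.add_apply]
    field_simp
    ring
  have f1v : ∫ y, tf a (L * (y - τ)) * y = τ / L * (∫ y, tf a y) + 1 / L ^ 2 * ∫ y, y * tf a y := by
    have h1 := (si1 _ τ hi2).const_mul (1 / L)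
    have h2 := (si1 _ τ hi).const_mul τ
    have h3 : (fun y => tf a (L * (y - τ)) * y) = fun y => 1 / L * (L * (y - τ) * tf a (L * (y - τ)))
        + τ * tf a (L * (y - τ)) := by
      ext y; field_simp; ring
    rw [h3, integral_add h1 h2, integral_const_mul, integral_const_mul,
      s1 (fun y => y * tf a y), s1 (tf a)]
    ring
  have f2 : Integrable fun y => tf a (L * (-y - τ)) * y := by
    have h1 := (si2 _ τ hi2).const_mul (-(1 / L))
    have h2 := (si2 _ τ hi).const_mul (-τ)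
    refine (h1.add h2).congr (Eventually.of_forall fun y => ?_)
    simp only [Pi.add_apply]
    field_simp
    ring
  have e1 : ∫ y in Ioi (0 : ℝ), hh (sc a L) τ y * y
      = (∫ y in Ioi (0 : ℝ), tf a (L * (y - τ)) * y) + ∫ y in Ioi (0 : ℝ), tf a (L * (-y - τ)) * y := by
    rw [← integral_add f1.integrableOn f2.integrableOn]
    refine integral_congr_ae (Eventually.of_forall fun y => ?_)
    dsimp only
    rw [hh_eq ha hL0]
    ring
  have e2 : (∫ y in Ioi (0 : ℝ), tf a (L * (y - τ)) * y)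
      = (∫ y, tf a (L * (y - τ)) * y) - ∫ y in Iic (0 : ℝ), tf a (L * (y - τ)) * y := by
    have := integral_add_compl (μ := (volume : Measure ℝ)) (s := Iic (0 : ℝ)) measurableSet_Iic f1
    rw [compl_Iic] at this
    linarith
  have b1 : |∫ y in Iic (0 : ℝ), tf a (L * (y - τ)) * y| ≤ 1 / L ^ 2 * M := by
    have h1 : Integrable fun y => 1 / L * (|L * (y - τ)| * |tf a (L * (y - τ))|) :=
      (si1 _ τ hi1).const_mul (1 / L)
    have h2 : |∫ y in Iic (0 : ℝ), tf a (L * (y - τ)) * y|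
        ≤ ∫ y in Iic (0 : ℝ), 1 / L * (|L * (y - τ)| * |tf a (L * (y - τ))|) := by
      rw [← Real.norm_eq_abs]
      refine norm_integral_le_of_norm_le h1.integrableOn ?_
      filter_upwards [ae_restrict_mem measurableSet_Iic] with y hy
      rw [mem_Iic] at hy
      rw [Real.norm_eq_abs, abs_mul, abs_mul, abs_of_pos hL0, abs_of_nonpos hy,
        abs_of_nonpos (by linarith : y - τ ≤ 0)]
      have h3 := abs_nonneg (tf a (L * (y - τ)))
      have h4 : 1 / L * (L * -(y - τ) * |tf a (L * (y - τ))|) = -(y - τ) * |tf a (L * (y - τ))| := by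
        field_simp
      rw [h4, mul_comm]
      gcongr
      linarith
    refine h2.trans ((setIntegral_le_integral h1 (Eventually.of_forall fun y => ?_)).trans ?_)
    · simp only [Pi.zero_apply]; positivity
    · rw [integral_const_mul, s1 (fun y => |y| * |tf a y|)]
      rw [← mul_assoc]
      refine le_of_eq ?_
      congr 1
      field_simp
  have b2 : |∫ y in Ioi (0 : ℝ), tf a (L * (-y - τ)) * y| ≤ 1 / L ^ 2 * M := by
    have h1 : Integrable fun y => 1 / L * (|L * (-y - τ)| * |tf a (L * (-y - τ))|) :=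
      (si2 _ τ hi1).const_mul (1 / L)
    have h2 : |∫ y in Ioi (0 : ℝ), tf a (L * (-y - τ)) * y|
        ≤ ∫ y in Ioi (0 : ℝ), 1 / L * (|L * (-y - τ)| * |tf a (L * (-y - τ))|) := by
      rw [← Real.norm_eq_abs]
      refine norm_integral_le_of_norm_le h1.integrableOn ?_
      filter_upwards [ae_restrict_mem measurableSet_Ioi] with y hy
      rw [mem_Ioi] at hy
      rw [Real.norm_eq_abs, abs_mul, abs_mul, abs_of_pos hL0, abs_of_pos hy,
        abs_of_nonpos (by linarith : -y - τ ≤ 0)]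
      have h3 := abs_nonneg (tf a (L * (-y - τ)))
      have h4 : 1 / L * (L * -(-y - τ) * |tf a (L * (-y - τ))|) = -(-y - τ) * |tf a (L * (-y - τ))| := by
        field_simp
      rw [h4, mul_comm]
      gcongr
      linarith
    refine h2.trans ((setIntegral_le_integral h1 (Eventually.of_forall fun y => ?_)).trans ?_)
    · simp only [Pi.zero_apply]; positivity
    · rw [integral_const_mul, s2 (fun y => |y| * |tf a y|)]
      rw [← mul_assoc]
      refine le_of_eq ?_
      congr 1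
      field_simp
  have b3 : |∫ y, y * tf a y| ≤ M := by
    rw [← Real.norm_eq_abs]
    refine norm_integral_le_of_norm_le hi1 (Eventually.of_forall fun y => ?_)
    rw [Real.norm_eq_abs, abs_mul]
  rw [e1, e2, f1v]
  have e4 : 1 / (2 * Real.pi) * ((τ / L * (∫ y, tf a y) + 1 / L ^ 2 * (∫ y, y * tf a y)) -
      (∫ y in Iic (0 : ℝ), tf a (L * (y - τ)) * y) + ∫ y in Ioi (0 : ℝ), tf a (L * (-y - τ)) * y) -
      τ / (2 * Real.pi * L) * ∫ y, tf a y = 1 / (2 * Real.pi) * (1 / L ^ 2 * (∫ y, y * tf a y) -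
        (∫ y in Iic (0 : ℝ), tf a (L * (y - τ)) * y) + ∫ y in Ioi (0 : ℝ),
          tf a (L * (-y - τ)) * y) := by
    have := Real.pi_ne_zero
    field_simp
    ring
  rw [e4, abs_mul, abs_of_pos (by positivity : 0 < 1 / (2 * Real.pi))]
  have h5 : |1 / L ^ 2 * (∫ y, y * tf a y) - (∫ y in Iic (0 : ℝ), tf a (L * (y - τ)) * y) +
      ∫ y in Ioi (0 : ℝ), tf a (L * (-y - τ)) * y| ≤ 1 / L ^ 2 * M + 1 / L ^ 2 * M + 1 / L ^ 2 * M := by
    refine (abs_add_le _ _).trans (add_le_add ((abs_sub _ _).trans (add_le_add ?_ b1)) b2)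
    rw [abs_mul, abs_of_pos (by positivity : 0 < 1 / L ^ 2)]
    gcongr
  have h6 : 1 / L ^ 2 * M ≤ 1 / L * M := by
    refine mul_le_mul_of_nonneg_right ?_ hM0
    refine one_div_le_one_div_of_le hL0 ?_
    nlinarith
  have h7 : 1 / (2 * Real.pi) * (3 * M) / L = 1 / (2 * Real.pi) * (3 * (1 / L * M)) := by ring
  rw [h7]
  refine mul_le_mul_of_nonneg_left ?_ (by positivity)
  linarith

private theorem Q1_nonneg {a : ℝ → ℂ} {B R : ℝ} (ha : AmpB a B R) : 0 ≤ B := by
  have h := ha.dec 0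
  rw [abs_zero, add_zero, one_pow, div_one] at h
  exact (abs_nonneg _).trans h

private theorem Q1_moment {a : ℝ → ℂ} {B R : ℝ} (ha : AmpB a B R) :
    ∫ y, |y| * |tf a y| ≤ B * ∫ x : ℝ, (1 + ‖x‖) ^ (-(3 : ℝ)) := by
  have hB := Q1_nonneg ha
  rw [← integral_const_mul]
  refine integral_mono (tf_int1 ha.amp)
    ((integrable_one_add_norm (μ := (volume : Measure ℝ)) (by simp)).const_mul B) fun x => ?_
  dsimp only
  have h2 := abs_nonneg x
  have h3 : |x| * |tf a x| ≤ (1 + |x|) * (B / (1 + |x|) ^ 4) := by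
    have h4 : |x| ≤ 1 + |x| := by linarith
    have h5 : 0 ≤ B / (1 + |x|) ^ 4 := by positivity
    exact mul_le_mul h4 (ha.dec x) (abs_nonneg _) (by positivity)
  refine h3.trans (le_of_eq ?_)
  rw [Real.rpow_neg (by positivity), Real.norm_eq_abs]
  norm_cast
  field_simp

theorem weyl_unif (B : ℝ) : ∃ C : ℝ, 0 ≤ C ∧ ∀ (a : ℝ → ℂ) (R : ℝ), AmpB a B R → ∀ L τ : ℝ, 1 ≤ L →
    1 ≤ τ → |1 / (2 * Real.pi) * (∫ y in Ioi (0 : ℝ), hh (sc a L) τ y * y) -
      τ / (2 * Real.pi * L) * ∫ y, tf a y| ≤ C / L := by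
  have hJ : 0 ≤ ∫ x : ℝ, (1 + ‖x‖) ^ (-(3 : ℝ)) := integral_nonneg fun x => by positivity
  refine ⟨1 / (2 * Real.pi) * (3 * (|B| * ∫ x : ℝ, (1 + ‖x‖) ^ (-(3 : ℝ)))), by positivity,
    fun a R ha L τ hL hτ => (Q1_weyl ha.amp hL hτ).trans ?_⟩
  have hB := Q1_nonneg ha
  have h1 := Q1_moment ha
  rw [abs_of_nonneg hB]
  gcongr

theorem refl_unif {κ : ℕ → ℝ} (h : Lev κ) (B : ℝ) : ∃ C : ℝ, 0 ≤ C ∧ ∀ (a : ℝ → ℂ) (R : ℝ),
    AmpB a B R → ∀ L τ : ℝ, 1 ≤ L → 1 ≤ τ → |∑' n, tf a (L * (-κ n - τ))| ≤ C / L := by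
  refine ⟨|B| * ∑' n, 1 / (κ n + 1) ^ 4, ?_, fun a R ha L τ hL hτ => ?_⟩
  · refine mul_nonneg (abs_nonneg B) (tsum_nonneg fun n => ?_)
    have := h.nn n
    positivity
  have hB := Q1_nonneg ha
  rw [abs_of_nonneg hB]
  have key : ∀ n, ‖tf a (L * (-κ n - τ))‖ ≤ B / L * (1 / (κ n + 1) ^ 4) := by
    intro n
    have h0 := h.nn n
    have hL0 : 0 < L := by linarith
    have h1 : L * (κ n + 1) ≤ 1 + |L * (-κ n - τ)| := by
      rw [abs_mul, abs_of_pos hL0, abs_of_nonpos (by linarith)]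
      nlinarith
    have h2 : L * (κ n + 1) ^ 4 ≤ (L * (κ n + 1)) ^ 4 := by
      rw [mul_pow]
      have h3 : L ≤ L ^ 4 := by
        calc L = L ^ 1 := (pow_one L).symm
          _ ≤ L ^ 4 := pow_le_pow_right₀ hL (by norm_num)
      gcongr
    rw [Real.norm_eq_abs]
    refine (ha.dec _).trans ?_
    calc B / (1 + |L * (-κ n - τ)|) ^ 4 ≤ B / (L * (κ n + 1)) ^ 4 := by gcongr
      _ ≤ B / (L * (κ n + 1) ^ 4) := by gcongr
      _ = _ := by field_simp
  have hs := (zsum h).mul_left (B / L)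
  have h1 := tsum_of_norm_bounded hs.hasSum key
  rw [Real.norm_eq_abs] at h1
  refine h1.trans (le_of_eq ?_)
  rw [tsum_mul_left]
  ring

theorem sc_unif {a : ℝ → ℂ} {B R : ℝ} (ha : AmpB a B R) {L : ℝ} (hL : 1 ≤ L) :
    ∀ j ≤ 4, ∀ t, ‖iteratedDeriv j (sc a L) t‖ ≤ 2 * B := by
  intro j hj t
  have hL0 : 0 < L := by linarith
  have e1 : sc a L = fun t => ((2 / L : ℝ) : ℂ) * (fun s => a (L⁻¹ * s)) t := by
    ext t
    unfold sc
    rw [div_eq_inv_mul t L]
  have e2 : iteratedDeriv j (sc a L) t = ((2 / L : ℝ) : ℂ) * ((L⁻¹ ^ j : ℝ) •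
      iteratedDeriv j a (L⁻¹ * t)) := by
    have hcd : ContDiff ℝ j a := ha.amp.smooth.of_le (by exact_mod_cast le_top)
    rw [e1, iteratedDeriv_const_mul]
    · congr 1
      have := congrFun (iteratedDeriv_comp_const_smul hcd L⁻¹) t
      simpa only [smul_eq_mul] using this
    · exact (hcd.comp (contDiff_const.mul contDiff_id)).contDiffAt
  rw [e2, norm_mul, norm_smul, Complex.norm_real, Real.norm_of_nonneg (by positivity),
    Real.norm_of_nonneg (by positivity)]
  have h2 : 2 / L ≤ 2 := by rw [div_le_iff₀ hL0]; linarith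
  have h3 : L⁻¹ ^ j ≤ 1 := pow_le_one₀ (by positivity) (inv_le_one_of_one_le₀ hL)
  have h4 := ha.der j hj (L⁻¹ * t)
  calc 2 / L * (L⁻¹ ^ j * ‖iteratedDeriv j a (L⁻¹ * t)‖) ≤ 2 * (1 * B) := by gcongr
    _ = _ := by ring

end NV73
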