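import Pool.Agent.LibNV73.Defs
import Pool.Agent.LibSC35.V1

/-! Row Q5: the amplitudes of the mollified sharp windows. 45 min.
Plan. `aR b (ind c) M t = ftF (ind c) t * b (t / M)`, `ftF (ind c) t = ∫ u in 0..c, e^(-i t u) du` (`IsAmp`: `amp_aR`,
LibSC35/M1; `Rd (ind c)`: as `rd_ind`, LibSC35/N1). Support: `b = 0` outside `[-ρ, ρ]` (`hb.amp.supp`), `M ≥ 1`.
Derivatives: `‖iteratedDeriv j (ftF (ind c)) t‖ ≤ ∫ u in 0..c, u^j ≤ 2^(j+1)` (differentiation under the integral, or a
general lemma on the Fourier integral; or the formula for `ftF`), those of `t ↦ b (t / M)` are bounded because `b` is smooth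
with compact support and `1 / M ≤ 1`; Leibniz (`norm_iteratedDeriv_mul_le`) for `j ≤ 4`. `dec`: `tf_aR` (LibSC35/M1):
`tf a y = ∫ u in 0..c, M tf b (M (y - u)) du ≥ 0`, at most `1` (`hb.one`), and for `|y| ≥ 4` (`|y - u| ≥ |y| / 2 ≥ 2`) at most
`2 M B6 / (1 + M |y| / 2)^6 ≤ B' / (1 + |y|)^4` (`hb.dec 6`). -/

open MeasureTheory Set Filter Topology FG33 SC35
open scoped ContDiff

namespace NV73

open GWin EM73

theorem rd_indc {c : ℝ} : Rd (ind c) := by
  refine ⟨measurable_one.indicator measurableSet_Ico, fun N =>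
    ⟨(1 + |c|) ^ N, by positivity, fun y => ?_⟩⟩
  unfold ind
  by_cases hy : y ∈ Ico (0 : ℝ) c
  · rw [indicator_of_mem hy]
    have h0 : |y| = y := abs_of_nonneg hy.1
    have h1 : (1 + |y|) ^ N ≤ (1 + |c|) ^ N := by
      apply pow_le_pow_left₀ (by positivity)
      rw [h0]
      linarith [hy.2, le_abs_self c]
    have h2 : 0 < (1 + |y|) ^ N := by positivity
    rw [le_div_iff₀ h2]
    simpa using h1
  · rw [indicator_of_notMem hy]
    simp only [abs_zero]
    positivity

private theorem Q5_ind_nn (c u : ℝ) : 0 ≤ ind c u ∧ ind c u ≤ 1 := by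
  unfold ind
  by_cases hy : u ∈ Ico (0 : ℝ) c
  · rw [indicator_of_mem hy]
    simp
  · rw [indicator_of_notMem hy]
    simp

private theorem Q5_ind_int (c : ℝ) : Integrable (ind c) := by
  simpa using rd_int (rd_indc (c := c)) 0

private theorem Q5_ind_val {c : ℝ} (hc : 0 ≤ c) : ∫ u, ind c u = c := by
  unfold ind
  rw [integral_indicator measurableSet_Ico]
  simp [hc]

/-- The derivatives of the transform of the window. -/
private theorem Q5_ft {c : ℝ} (hc0 : 0 ≤ c) (hc : c ≤ 2) (j : ℕ) (t : ℝ) :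
    ‖iteratedDeriv j (ftF (ind c)) t‖ ≤ 2 ^ (j + 1) := by
  have hf := rd_indc (c := c)
  obtain ⟨F, hF⟩ : ∃ F : ℝ → ℂ, F = FourierTransform.fourier (fun u : ℝ => (ind c u : ℂ)) :=
    ⟨_, rfl⟩
  have hF1 : ContDiff ℝ ∞ F := by
    rw [hF]
    refine Real.contDiff_fourier fun n _ => ?_
    refine (rd_int hf n).norm.congr (Eventually.of_forall fun u => ?_)
    simp
  have hcd : ContDiff ℝ j F := hF1.of_le (by exact_mod_cast le_top)
  have e1 : ftF (ind c) = fun t => F ((2 * Real.pi)⁻¹ * t) := by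
    rw [M1_fourier, hF]
    funext t
    rw [mul_comm]
  have e2 : iteratedDeriv j (ftF (ind c)) t =
      ((2 * Real.pi)⁻¹ ^ j : ℝ) • iteratedDeriv j F ((2 * Real.pi)⁻¹ * t) := by
    rw [e1]
    have := congrFun (iteratedDeriv_comp_const_smul hcd (2 * Real.pi)⁻¹) t
    simpa only [smul_eq_mul] using this
  have e3 : iteratedDeriv j F = FourierTransform.fourier
      (fun x : ℝ => (-2 * Real.pi * Complex.I * x) ^ j • ((ind c x : ℝ) : ℂ)) := by
    rw [hF]
    refine Real.iteratedDeriv_fourier (N := ⊤) (fun n _ => ?_) le_top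
    refine (rd_int hf n).norm.mono' ?_ (Eventually.of_forall fun u => ?_)
    · exact ((continuous_id.pow n).aestronglyMeasurable).smul
        (Complex.measurable_ofReal.comp hf.meas).aestronglyMeasurable
    · rw [norm_smul, norm_mul, norm_pow, norm_pow, Complex.norm_real, Real.norm_eq_abs |u|, abs_abs,
        Real.norm_eq_abs u]
  have h1 : ‖iteratedDeriv j F ((2 * Real.pi)⁻¹ * t)‖ ≤ (2 * Real.pi) ^ j * 2 ^ (j + 1) := by
    rw [e3, Real.fourier_real_eq_integral_exp_smul]
    refine (norm_integral_le_integral_norm _).trans ?_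
    have h2 : ∫ u, ‖Complex.exp (↑(-2 * Real.pi * u * ((2 * Real.pi)⁻¹ * t)) * Complex.I) •
        ((-2 * Real.pi * Complex.I * u) ^ j • ((ind c u : ℝ) : ℂ))‖ ≤
        ∫ u, (2 * Real.pi) ^ j * 2 ^ j * ind c u := by
      refine integral_mono_of_nonneg (Eventually.of_forall fun u => norm_nonneg _)
        ((Q5_ind_int c).const_mul _) (Eventually.of_forall fun u => ?_)
      have h3 := Q5_ind_nn c u
      dsimp only
      rw [norm_smul, Complex.norm_exp_ofReal_mul_I, one_mul, norm_smul, norm_pow, Complex.norm_real,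
        Real.norm_of_nonneg h3.1]
      have h4 : ‖(-2 * Real.pi * Complex.I * u : ℂ)‖ = 2 * Real.pi * |u| := by
        rw [norm_mul, norm_mul, norm_mul, Complex.norm_I, Complex.norm_real, Complex.norm_real,
          Real.norm_of_nonneg Real.pi_pos.le, Real.norm_eq_abs]
        simp
      rw [h4]
      by_cases hu : u ∈ Ico (0 : ℝ) c
      · have h5 : |u| ≤ 2 := by
          rw [abs_of_nonneg hu.1]
          linarith [hu.2]
        rw [mul_pow]
        have := h3.1
        have := Real.pi_pos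
        gcongr
      · have h5 : ind c u = 0 := by
          unfold ind
          rw [indicator_of_notMem hu]
        rw [h5, mul_zero, mul_zero]
    refine h2.trans ?_
    rw [integral_const_mul, Q5_ind_val hc0, pow_succ (2 : ℝ) j]
    have h3 : 0 ≤ (2 * Real.pi) ^ j * 2 ^ j := by positivity
    nlinarith
  rw [e2, norm_smul, Real.norm_of_nonneg (by positivity)]
  calc (2 * Real.pi)⁻¹ ^ j * ‖iteratedDeriv j F ((2 * Real.pi)⁻¹ * t)‖
      ≤ (2 * Real.pi)⁻¹ ^ j * ((2 * Real.pi) ^ j * 2 ^ (j + 1)) := by gcongr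
    _ = _ := by
      rw [← mul_assoc, ← mul_pow, inv_mul_cancel₀ (by positivity), one_pow, one_mul]

/-- The derivatives of a smooth function with compact support are bounded. -/
private theorem Q5_bdd {a : ℝ → ℂ} (ha : IsAmp a) : ∃ B : ℝ, 0 < B ∧ ∀ j ≤ 4, ∀ t,
    ‖iteratedDeriv j a t‖ ≤ B := by
  have h1 : ∀ j : ℕ, ∃ B : ℝ, ∀ t, ‖iteratedDeriv j a t‖ ≤ B := by
    intro j
    have hc : Continuous (iteratedDeriv j a) :=
      ha.smooth.continuous_iteratedDeriv j (by exact_mod_cast le_top)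
    have hs : HasCompactSupport (iteratedDeriv j a) := by
      have h2 := ha.supp.iteratedFDeriv (𝕜 := ℝ) j
      have h3 : iteratedDeriv j a = fun t => iteratedFDeriv ℝ j a t (fun _ => 1) := by
        ext t; rw [iteratedDeriv_eq_iteratedFDeriv]
      rw [h3]
      exact h2.comp_left (g := fun m => m (fun _ => (1 : ℝ))) (by simp)
    obtain ⟨x, hx⟩ := hc.norm.exists_forall_ge_of_hasCompactSupport hs.norm
    exact ⟨_, hx⟩
  choose B hB using h1
  have hB0 : ∀ j, 0 ≤ B j := fun j => (norm_nonneg _).trans (hB j 0)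
  refine ⟨∑ j ∈ Finset.range 5, B j + 1, by
    have := Finset.sum_nonneg (s := Finset.range 5) fun j _ => hB0 j
    positivity, fun j hj t => ?_⟩
  have h5 : B j ≤ ∑ j ∈ Finset.range 5, B j :=
    Finset.single_le_sum (fun j _ => hB0 j) (by simp; omega)
  linarith [hB j t]

/-- The derivatives of the product. -/
private theorem Q5_der {b : ℝ → ℂ} (hb : Ker b) {D : ℝ} (hD : 0 < D)
    (hDb : ∀ j ≤ 4, ∀ t, ‖iteratedDeriv j b t‖ ≤ D) {c M : ℝ} (hc0 : 0 ≤ c) (hc : c ≤ 2)
    (hM : 1 ≤ M) (j : ℕ) (hj : j ≤ 4) (t : ℝ) :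
    ‖iteratedDeriv j (aR b (ind c) M) t‖ ≤ 512 * D := by
  have hM0 : 0 < M := by linarith
  have e1 : aR b (ind c) M = fun t => ftF (ind c) t * (fun s => b (M⁻¹ * s)) t := by
    funext t
    unfold aR
    rw [div_eq_inv_mul]
  have hf : ContDiff ℝ j (ftF (ind c)) := (ftF_smooth rd_indc).of_le (by exact_mod_cast le_top)
  have hbj : ∀ i : ℕ, ContDiff ℝ i b := fun i => hb.amp.smooth.of_le (by exact_mod_cast le_top)
  have hg : ContDiff ℝ j (fun s => b (M⁻¹ * s)) :=
    (hbj j).comp (contDiff_const.mul contDiff_id)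
  rw [← norm_iteratedFDeriv_eq_norm_iteratedDeriv, e1]
  refine (norm_iteratedFDeriv_mul_le (N := j) hf hg t le_rfl).trans ?_
  have h1 : ∀ i ∈ Finset.range (j + 1), (j.choose i : ℝ) * ‖iteratedFDeriv ℝ i (ftF (ind c)) t‖ *
      ‖iteratedFDeriv ℝ (j - i) (fun s => b (M⁻¹ * s)) t‖ ≤ (j.choose i : ℝ) * (32 * D) := by
    intro i hi
    have hi' : i ≤ j := by
      have := Finset.mem_range.1 hi
      omega
    rw [norm_iteratedFDeriv_eq_norm_iteratedDeriv, norm_iteratedFDeriv_eq_norm_iteratedDeriv,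
      mul_assoc]
    refine mul_le_mul_of_nonneg_left ?_ (Nat.cast_nonneg _)
    have h2 : ‖iteratedDeriv i (ftF (ind c)) t‖ ≤ 32 := by
      refine (Q5_ft hc0 hc i t).trans ?_
      have h3 : (2 : ℝ) ^ (i + 1) ≤ 2 ^ 5 := pow_le_pow_right₀ (by norm_num) (by omega)
      norm_num at h3 ⊢
      exact h3
    have h3 : ‖iteratedDeriv (j - i) (fun s => b (M⁻¹ * s)) t‖ ≤ D := by
      have e2 : iteratedDeriv (j - i) (fun s => b (M⁻¹ * s)) t =
          ((M⁻¹ ^ (j - i) : ℝ)) • iteratedDeriv (j - i) b (M⁻¹ * t) := by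
        have := congrFun (iteratedDeriv_comp_const_smul (hbj (j - i)) M⁻¹) t
        simpa only [smul_eq_mul] using this
      rw [e2, norm_smul, Real.norm_of_nonneg (by positivity)]
      have h4 : M⁻¹ ^ (j - i) ≤ 1 := pow_le_one₀ (by positivity) (inv_le_one_of_one_le₀ hM)
      have h5 := hDb (j - i) (by omega) (M⁻¹ * t)
      calc M⁻¹ ^ (j - i) * ‖iteratedDeriv (j - i) b (M⁻¹ * t)‖ ≤ 1 * D := by gcongr
        _ = D := one_mul D
    gcongr
  refine (Finset.sum_le_sum h1).trans ?_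
  rw [← Finset.sum_mul]
  have h2 : (∑ i ∈ Finset.range (j + 1), (j.choose i : ℝ)) = 2 ^ j := by
    exact_mod_cast Nat.sum_range_choose j
  rw [h2]
  have h3 : (2 : ℝ) ^ j ≤ 2 ^ 4 := pow_le_pow_right₀ (by norm_num) hj
  have h4 : (2 : ℝ) ^ j * (32 * D) ≤ 2 ^ 4 * (32 * D) := by gcongr
  linarith

/-- The decay. -/
private theorem Q5_dec {b : ℝ → ℂ} (hb : Ker b) {E : ℝ} (hE : 0 < E)
    (hEb : ∀ y, tf b y ≤ E / (1 + |y|) ^ 5) {c M : ℝ} (hc0 : 0 ≤ c) (hc : c ≤ 2)
    (hM : 1 ≤ M) (y : ℝ) :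
    |tf (aR b (ind c) M) y| ≤ (625 + 32 * E) / (1 + |y|) ^ 4 := by
  have hM0 : 0 < M := by linarith
  have hy0 := abs_nonneg y
  rw [tf_aR hb rd_indc hM0]
  have hnn : ∀ u, 0 ≤ ind c u * (M * tf b (M * (y - u))) := fun u =>
    mul_nonneg (Q5_ind_nn c u).1 (mul_nonneg hM0.le (hb.pos _))
  rw [abs_of_nonneg (integral_nonneg hnn)]
  by_cases hy : |y| ≤ 4
  · have hKi : Integrable fun σ => M * tf b (M * σ) := by
      simpa using J2_wint hb 0 hM0
    have h1 : ∫ u, ind c u * (M * tf b (M * (y - u))) ≤ ∫ u, M * tf b (M * (y - u)) := by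
      refine integral_mono_of_nonneg (Eventually.of_forall hnn) (hKi.comp_sub_left y)
        (Eventually.of_forall fun u => ?_)
      have h2 := Q5_ind_nn c u
      have h3 := mul_nonneg hM0.le (hb.pos (M * (y - u)))
      dsimp only
      nlinarith
    have h2 : ∫ u, M * tf b (M * (y - u)) = 1 := by
      rw [integral_sub_left_eq_self (fun v => M * tf b (M * v)) volume y, J2_one hb hM0]
    rw [h2] at h1
    refine h1.trans ?_
    rw [le_div_iff₀ (by positivity), one_mul]
    have h3 : (1 + |y|) ^ 4 ≤ 5 ^ 4 := by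
      have : 1 + |y| ≤ 5 := by linarith
      gcongr
    norm_num at h3
    linarith
  · have hy' : 4 < |y| := not_le.1 hy
    have h1 : ∫ u, ind c u * (M * tf b (M * (y - u))) ≤
        ∫ u, ind c u * (16 * E / (1 + |y|) ^ 4) := by
      refine integral_mono_of_nonneg (Eventually.of_forall hnn) ((Q5_ind_int c).mul_const _)
        (Eventually.of_forall fun u => ?_)
      dsimp only
      by_cases hu : u ∈ Ico (0 : ℝ) c
      · refine mul_le_mul_of_nonneg_left ?_ (Q5_ind_nn c u).1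
        obtain ⟨x, hx⟩ : ∃ x, x = |y - u| := ⟨_, rfl⟩
        have h2 : |y| / 2 ≤ x := by
          have h3 := abs_sub_abs_le_abs_sub y u
          rw [abs_of_nonneg hu.1, ← hx] at h3
          linarith [hu.2]
        have hx2 : 2 ≤ x := by linarith
        have h3 : |M * (y - u)| = M * x := by
          rw [abs_mul, abs_of_pos hM0, hx]
        have h4 := hEb (M * (y - u))
        rw [h3] at h4
        have h5 : M * (1 + |y|) ^ 4 ≤ 16 * (1 + M * x) ^ 5 := by
          have h6 : 1 + |y| ≤ 2 * (1 + M * x) := by nlinarith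
          have h7 : M ≤ 1 + M * x := by nlinarith
          have h8 : 0 ≤ 1 + M * x := by nlinarith
          calc M * (1 + |y|) ^ 4 ≤ (1 + M * x) * (2 * (1 + M * x)) ^ 4 := by gcongr
            _ = _ := by ring
        have h8 : 0 < 1 + M * x := by nlinarith
        calc M * tf b (M * (y - u)) ≤ M * (E / (1 + M * x) ^ 5) := by gcongr
          _ ≤ 16 * E / (1 + |y|) ^ 4 := by
            rw [mul_div_assoc', div_le_div_iff₀ (by positivity) (by positivity)]
            nlinarith [mul_le_mul_of_nonneg_left h5 hE.le]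
      · have h5 : ind c u = 0 := by
          unfold ind
          rw [indicator_of_notMem hu]
        rw [h5, zero_mul, zero_mul]
    refine h1.trans ?_
    rw [integral_mul_const, Q5_ind_val hc0]
    rw [mul_div_assoc', div_le_div_iff_of_pos_right (by positivity)]
    nlinarith

theorem ampB_ind {b : ℝ → ℂ} (hb : Ker b) : ∃ B ρ : ℝ, 1 ≤ ρ ∧ ∀ c M : ℝ, 1 ≤ c → c ≤ 2 → 1 ≤ M →
    AmpB (aR b (ind c) M) B (ρ * M) := by
  obtain ⟨D, hD, hDb⟩ := Q5_bdd hb.amp
  obtain ⟨E, hE, hEb⟩ := hb.dec 5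
  obtain ⟨r, hr⟩ := (Metric.isBounded_iff_subset_closedBall (0 : ℝ)).1 hb.amp.supp.isCompact.isBounded
  refine ⟨512 * D + (625 + 32 * E), max 1 r, le_max_left _ _, fun c M hc1 hc2 hM => ?_⟩
  have hM0 : 0 < M := by linarith
  have hc0 : 0 ≤ c := by linarith
  refine ⟨amp_aR hb rd_indc hM0, fun s hs => ?_, fun j hj t => ?_, fun y => ?_⟩
  · have h1 : b (s / M) = 0 := by
      by_contra h2
      have h3 : s / M ∈ tsupport b := subset_tsupport b h2
      have h4 := hr h3
      rw [mem_closedBall_zero_iff, Real.norm_eq_abs, abs_div, abs_of_pos hM0,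
        div_le_iff₀ hM0] at h4
      have h5 : r * M ≤ max 1 r * M := mul_le_mul_of_nonneg_right (le_max_right _ _) hM0.le
      linarith
    unfold aR
    rw [h1, mul_zero]
  · have h1 := Q5_der hb hD hDb hc0 hc2 hM j hj t
    linarith
  · refine (Q5_dec hb hE hEb hc0 hc2 hM y).trans ?_
    refine div_le_div_of_nonneg_right ?_ (by positivity)
    linarith

end NV73
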