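import Pool.Agent.LibNV73.Fdefs
import Pool.Agent.LibNV73.Q9
import Pool.Agent.LibEM73.F3

/-! The number variance of every metric. -/

open MeasureTheory ProbabilityTheory Set Filter Topology FG33 BGS
open scoped ContDiff ENNReal NNReal

namespace NV73

open EM73

variable {Γ : Type} [Group Γ] [MulAction Γ Pl] {D : Set Pl}

/-- The number of levels in the window. -/
theorem count_c (hX : Surface Γ D) (m : Mt Γ D) {l c : ℝ} (hl : 0 < l) (hc : 0 < c) (τ : ℝ) :
    FE35.stat m (ind c) l τ =
      (({k : ℕ | τ ≤ FG33.lam m k ∧ FG33.lam m k < τ + c / l}.ncard : ℕ) : ℝ) -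
        c / l * τ / (2 * Real.pi) := by
  have hlev := GD.lev hX m
  obtain ⟨c0, hc0, hg⟩ := hlev.grow
  have hfin : {k : ℕ | τ ≤ FG33.lam m k ∧ FG33.lam m k < τ + c / l}.Finite := by
    refine (Set.finite_Iic (⌈((τ + c / l + 1) / c0) ^ 2⌉₊)).subset fun k hk => ?_
    have h1 := hg k
    have h2 : c0 * √(k : ℝ) ≤ τ + c / l + 1 := by
      have : FG33.lam m k < τ + c / l := hk.2
      linarith
    have h3 : √(k : ℝ) ≤ (τ + c / l + 1) / c0 := by
      rw [le_div_iff₀ hc0]
      linarith
    have h4 : (k : ℝ) ≤ ((τ + c / l + 1) / c0) ^ 2 := by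
      have := Real.sqrt_nonneg (k : ℝ)
      calc (k : ℝ) = √(k : ℝ) ^ 2 := (Real.sq_sqrt (by positivity)).symm
        _ ≤ _ := by gcongr
    exact_mod_cast h4.trans (Nat.le_ceil _)
  unfold FE35.stat ind
  congr 1
  · rw [tsum_eq_sum (s := hfin.toFinset)]
    · rw [Set.ncard_eq_toFinset_card _ hfin, Finset.card_eq_sum_ones]
      push_cast
      refine Finset.sum_congr rfl fun k hk => ?_
      have hk' : k ∈ {k : ℕ | τ ≤ FG33.lam m k ∧ FG33.lam m k < τ + c / l} := by simpa using hk
      rw [indicator_of_mem]
      · rfl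
      · constructor
        · have := hk'.1
          have h5 : 0 ≤ FG33.lam m k - τ := by linarith
          positivity
        · have := hk'.2
          have h5 : FG33.lam m k - τ < c / l := by linarith
          calc l * (FG33.lam m k - τ) < l * (c / l) := by gcongr
            _ = c := by field_simp
    · intro k hk
      rw [indicator_of_notMem]
      intro h5
      apply hk
      rw [hfin.mem_toFinset]
      constructor
      · have h6 : 0 ≤ FG33.lam m k - τ := by
          by_contra h7
          rw [not_le] at h7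
          have := mul_neg_of_pos_of_neg hl h7
          linarith [h5.1]
        linarith
      · have h6 : FG33.lam m k - τ < c / l := by
          rw [lt_div_iff₀ hl, mul_comm]
          exact h5.2
        linarith
  · rw [integral_indicator measurableSet_Ico]
    simp only [Pi.one_apply, integral_const, MeasurableSet.univ, measureReal_restrict_apply,
      univ_inter, Real.volume_real_Ico, sub_zero, smul_eq_mul, mul_one]
    rw [max_eq_left hc.le]
    field_simp

theorem numVar_eq (hX : Surface Γ D) (m : Mt Γ D) {l c : ℝ} (hl : 0 < l) (hc : 0 < c) (T : ℝ) :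
    numVar m T (c / l) = FE35.tmean T fun τ => FE35.stat m (ind c) l τ ^ 2 := by
  unfold numVar
  congr 1
  ext τ
  rw [count_c hX m hl hc]

/-- Every metric: the number variance tends to infinity. -/
theorem numVar_top (hX : Surface Γ D) (hO : BR.Ori Γ) (m : Mt Γ D)
    {L : ℝ → ℝ} (hL : Tendsto L atTop atTop)
    (hL' : Tendsto (fun T => L T / Real.log T) atTop (𝓝 0)) :
    Tendsto (fun T => numVar m T (1 / L T)) atTop atTop := by
  refine (GD.num_var hX hO m (SR85Z.sumrule hX hO m) hL hL').congr' ?_
  filter_upwards [hL.eventually_gt_atTop 0] with T hT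
  unfold numVar
  congr 1
  ext τ
  congr 2
  field_simp

/-- Every metric: the number variance in the mean over the window size. -/
theorem numVar_low (hX : Surface Γ D) (hO : BR.Ori Γ) (m : Mt Γ D)
    {L : ℝ → ℝ} (hL : Tendsto L atTop atTop)
    (hL' : Tendsto (fun T => L T / Real.log T) atTop (𝓝 0)) {ε : ℝ} (hε : 0 < ε) :
    ∀ᶠ T in atTop, ENNReal.ofReal ((2 / Real.pi ^ 2 - ε) * Real.log (Real.log T / L T)) ≤
      ∫⁻ c in Icc (1 : ℝ) 2, ENNReal.ofReal (numVar m T (c / L T)) := by
  obtain ⟨G, κ, -, hok, hSR, hl, hT⟩ := data_of hX hO m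
  filter_upwards [num_low hok hSR hl hT hL hL' hε, hL.eventually_gt_atTop 0] with T h1 h2
  refine h1.trans (le_of_eq ?_)
  refine setLIntegral_congr_fun measurableSet_Icc fun c hc => ?_
  have hc0 : 0 < c := by linarith [hc.1]
  rw [numVar_eq hX m h2 hc0]
  rfl

end NV73
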