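import Pool.Agent.LibSC35.J3
import Pool.Agent.LibEM73.N9

/-! The number variance with an explicit rate: definitions. -/

open MeasureTheory Set Filter Topology FG33 SC35
open scoped ContDiff

namespace NV73

open GWin EM73

/-- The indicator function of `[0, c)`. -/
noncomputable def ind (c : ℝ) : ℝ → ℝ := indicator (Ico (0 : ℝ) c) 1

/-- Amplitudes with explicit bounds. -/
structure AmpB (a : ℝ → ℂ) (B R : ℝ) : Prop where
  amp : IsAmp a
  sup : ∀ s, R < |s| → a s = 0
  der : ∀ j ≤ 4, ∀ t, ‖iteratedDeriv j a t‖ ≤ B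
  dec : ∀ y, |tf a y| ≤ B / (1 + |y|) ^ 4

end NV73
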