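import Pool.Agent.LibEM73.Fdefs

/-! The number variance: definition. -/

open MeasureTheory Set Filter Topology BGS FE35

namespace EM73

/-- The number variance of windows of length `δ`, in the mean over `[0, T]` with the density
`2 (T - τ) / T²`: the number of the `λ_k` in `[τ, τ + δ)` is compared with the Weyl term
`δ τ / (2 π)`. -/
noncomputable def numVar {Γ : Type} [Group Γ] [MulAction Γ Pl] {D : Set Pl} (m : Mt Γ D)
    (T δ : ℝ) : ℝ :=
  tmean T fun τ =>
    ({k : ℕ | τ ≤ FG33.lam m k ∧ FG33.lam m k < τ + δ}.ncard - δ * τ / (2 * Real.pi)) ^ 2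

end EM73
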