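import Pool.Agent.LibNV73.Q1

/-! Row Q2: the reduction, uniformly in the amplitude. 25 min.
Plan. Copy the proof of `reduction` (LibGWa/U4) with `weyl_unif`, `refl_unif`, `sc_unif`. -/

open MeasureTheory Set Filter Topology FG33 SC35
open scoped ContDiff

namespace NV73

open GWin EM73

theorem red_unif {G : Geo} {κ : ℝ} (h : Ok G κ) {lev : ℕ → ℝ} (hl : Lev lev)
    (hT : Trace G lev) (B : ℝ) : ∃ C : ℝ, 0 < C ∧ ∀ (a : ℝ → ℂ) (R : ℝ), AmpB a B R → 1 ≤ R →
      ∀ L τ : ℝ, 1 ≤ L → 1 ≤ τ →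
        |st lev a L τ - Osc G a R L τ| ≤ C / L + C * Real.exp (C * (R * L)) * τ ^ (-(1 / 2) : ℝ) := by
  obtain ⟨C1, hC1, h1⟩ := hT
  obtain ⟨C2, hC2, h2⟩ := weyl_unif B
  obtain ⟨C3, hC3, h3⟩ := refl_unif hl B
  refine ⟨C1 * (2 * |B|) + C1 + C2 + C3 + 1, by positivity, fun a R hA hR1 L τ hL hτ => ?_⟩
  have hB : 0 ≤ B := (norm_nonneg _).trans (hA.der 0 (by norm_num) 0)
  have hBa : |B| = B := abs_of_nonneg hB
  have ha := hA.amp
  have hR := hA.sup
  have hL0 : 0 < L := by linarith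
  have hR0 : 0 < R := by linarith
  have h5 := h1 (sc a L) (R * L) (2 * B) τ ?_ ?_ (by positivity) ?_ hτ (sc_unif hA hL)
  · rw [osc_eq h hR hL0, hh_sum ha hl hL hτ] at h5
    have h6 := h2 a R hA L τ hL hτ
    have h7 := h3 a R hA L τ hL hτ
    set S1 := ∑' n, tf a (L * (lev n - τ)) with hS1
    set S2 := ∑' n, tf a (L * (-lev n - τ)) with hS2
    set W := 1 / (2 * Real.pi) * (∫ y in Ioi (0 : ℝ), hh (sc a L) τ y * y) with hW
    set V := τ / (2 * Real.pi * L) * ∫ y, tf a y with hV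
    have e1 : st lev a L τ - Osc G a R L τ = (S1 + S2 - W - Osc G a R L τ) + (W - V) - S2 := by
      unfold st
      rw [← hS1, ← hV]
      ring
    rw [e1]
    refine ((abs_sub _ _).trans (add_le_add ((abs_add_le _ _).trans (add_le_add h5 h6)) h7)).trans ?_
    rw [hBa]
    set D := C1 * (2 * B) + C1 + C2 + C3 + 1 with hD
    have hτ0 : 0 ≤ τ ^ (-(1 / 2) : ℝ) := by positivity
    have hC1B : 0 ≤ C1 * (2 * B) := by positivity
    have h8 : C1 * Real.exp (C1 * (R * L)) * τ ^ (-(1 / 2) : ℝ) * (2 * B)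
        ≤ D * Real.exp (D * (R * L)) * τ ^ (-(1 / 2) : ℝ) := by
      have h9 : Real.exp (C1 * (R * L)) ≤ Real.exp (D * (R * L)) := by
        rw [Real.exp_le_exp]
        refine mul_le_mul_of_nonneg_right ?_ (by positivity)
        linarith
      have h10 : C1 * (2 * B) ≤ D := by linarith
      calc C1 * Real.exp (C1 * (R * L)) * τ ^ (-(1 / 2) : ℝ) * (2 * B)
          = C1 * (2 * B) * Real.exp (C1 * (R * L)) * τ ^ (-(1 / 2) : ℝ) := by ring
        _ ≤ D * Real.exp (D * (R * L)) * τ ^ (-(1 / 2) : ℝ) := by gcongr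
    have h9 : C2 / L + C3 / L ≤ D / L := by
      rw [← add_div]
      gcongr
      linarith
    linarith
  · unfold sc
    exact contDiff_const.mul (ha.smooth.comp (contDiff_id.div_const L))
  · intro t
    unfold sc
    rw [neg_div, ha.herm, map_mul, Complex.conj_ofReal]
  · intro t ht
    unfold sc
    rw [hR, mul_zero]
    rw [abs_div, abs_of_pos hL0, lt_div_iff₀ hL0]
    exact ht

end NV73
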