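import Pool.Agent.LibNV73.Defs

/-! Row Q3: the sum over the closed geodesics, uniformly in the amplitude. 40 min.
Plan. `total_unif`: `‖amp G a L p k‖ ≤ B * 4 / L * len p / √(tw p (k+1))` (`j = 0` of `AmpB.der`); the bound is
`amp_total_le` (LibGWa/V4), whose proof gives `exp ((|C2| R + C1) L)` with constants independent of `R` and of `a` up to `A`;
the easiest is to apply `amp_total_le` for the constant amplitude (as in `osc_sq_low`, LibEM73/N6), with `R = 1` and `L`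
replaced by `R * L`: the pairs `(p, k)` are those of `ball G (R * L)`, and
`4 / L = R * (4 / (R * L))`, `R ≤ exp R ≤ exp (R L)`. `osc_bdd_unif`: triangle inequality, `|Re z| ≤ ‖z‖`, `‖exp (i x)‖ = 1`.
`sq_unif`: as `osc_sq_low` (LibEM73/N6) from `tri_low` (LibEM73/N5) with `A = B`, and the Lipschitz constant `B` of `a` (`j = 1` of
`AmpB.der`, mean value inequality), `1 ≤ L`. -/

open MeasureTheory Set Filter Topology FG33 SC35
open scoped ContDiff

namespace NV73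

open GWin EM73

/-- the total weight, uniformly -/
private theorem Q3_one {G : Geo} {κ : ℝ} (h : Ok G κ) : ∃ C : ℝ, 0 < C ∧
    ∀ R : ℝ, 1 ≤ R → ∀ L : ℝ, 1 ≤ L →
      ∑ p ∈ ball G (R * L), ∑ k ∈ Finset.range (KK G (R * L)), ‖amp G (fun _ => 1) L p k‖ ≤
        Real.exp (C * (R * L)) := by
  obtain ⟨C1, hC1, h1⟩ := amp_sum_le h (a := fun _ => 1) (A := 1) (fun s => by simp)
  obtain ⟨C2, h2⟩ := h.count
  refine ⟨|C2| + C1, by positivity, fun R hR L hL => ?_⟩
  have hL0 : 0 < L := by linarith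
  have hRL : 1 ≤ R * L := by nlinarith
  have hRL0 : 0 ≤ R * L := by linarith
  have h3 : ∑ p ∈ ball G (R * L), ∑ k ∈ Finset.range (KK G (R * L)), ‖amp G (fun _ => 1) L p k‖
      ≤ ∑ p ∈ ball G (R * L), C1 := by
    refine Finset.sum_le_sum fun p _ => (h1 L p _ hL0).trans ?_
    exact div_le_self hC1.le hL
  refine h3.trans ?_
  rw [Finset.sum_const, nsmul_eq_mul]
  have h4 : ((ball G (R * L)).card : ℝ) ≤ Real.exp (C2 * (R * L)) := by
    refine le_trans (le_of_eq ?_) (h2 (R * L) hRL0)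
    unfold ball
    rw [dif_pos (h.fin _), ncard_eq_toFinset_card _ (h.fin _)]
  have h5 : Real.exp (C2 * (R * L)) ≤ Real.exp (|C2| * (R * L)) := by
    rw [Real.exp_le_exp]
    exact mul_le_mul_of_nonneg_right (le_abs_self C2) hRL0
  have h6 : C1 ≤ Real.exp (C1 * (R * L)) := by
    have h7 := Real.add_one_le_exp (C1 * (R * L))
    nlinarith
  calc ((ball G (R * L)).card : ℝ) * C1 ≤ Real.exp (|C2| * (R * L)) * Real.exp (C1 * (R * L)) := by
        gcongr
        exact h4.trans h5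
    _ = Real.exp ((|C2| + C1) * (R * L)) := by rw [← Real.exp_add]; congr 1; ring

private theorem Q3_bd {a : ℝ → ℂ} {B R : ℝ} (ha : AmpB a B R) (t : ℝ) : ‖a t‖ ≤ |B| := by
  have h1 := ha.der 0 (by norm_num) t
  rw [iteratedDeriv_zero] at h1
  exact h1.trans (le_abs_self B)

private theorem Q3_lip {a : ℝ → ℂ} {B R : ℝ} (ha : AmpB a B R) (x y : ℝ) :
    ‖a x - a y‖ ≤ |B| * |x - y| := by
  have h1 : ∀ t ∈ (univ : Set ℝ), DifferentiableAt ℝ a t := fun t _ =>
    (ha.amp.smooth.differentiable (by simp)).differentiableAt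
  have h2 : ∀ t ∈ (univ : Set ℝ), ‖deriv a t‖ ≤ |B| := fun t _ => by
    have h3 := ha.der 1 (by norm_num) t
    rw [iteratedDeriv_one] at h3
    exact h3.trans (le_abs_self B)
  have h4 := convex_univ.norm_image_sub_le_of_norm_deriv_le h1 h2 (mem_univ y) (mem_univ x)
  rwa [Real.norm_eq_abs] at h4

private theorem Q3_amp {G : Geo} {κ : ℝ} (h : Ok G κ) {a : ℝ → ℂ} {B R : ℝ} (ha : AmpB a B R)
    {L : ℝ} (hL : 0 < L) (p : G.P) (k : ℕ) :
    ‖amp G a L p k‖ ≤ |B| * ‖amp G (fun _ => 1) L p k‖ := by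
  rw [amp_norm h a hL, amp_norm h _ hL, norm_one, mul_one, mul_comm |B|]
  have hp := h.pos p
  exact mul_le_mul_of_nonneg_left (Q3_bd ha _) (by positivity)

theorem total_unif {G : Geo} {κ : ℝ} (h : Ok G κ) (B : ℝ) : ∃ C : ℝ, 0 < C ∧
    ∀ (a : ℝ → ℂ) (R : ℝ), AmpB a B R → 1 ≤ R → ∀ L : ℝ, 1 ≤ L →
      ∑ p ∈ ball G (R * L), ∑ k ∈ Finset.range (KK G (R * L)), ‖amp G a L p k‖ ≤
        Real.exp (C * (R * L)) := by
  obtain ⟨C1, hC1, h1⟩ := Q3_one h
  refine ⟨C1 + |B|, by positivity, fun a R ha hR L hL => ?_⟩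
  have hL0 : 0 < L := by linarith
  have hRL : 1 ≤ R * L := by nlinarith
  have h2 : ∑ p ∈ ball G (R * L), ∑ k ∈ Finset.range (KK G (R * L)), ‖amp G a L p k‖ ≤
      |B| * ∑ p ∈ ball G (R * L), ∑ k ∈ Finset.range (KK G (R * L)), ‖amp G (fun _ => 1) L p k‖ := by
    rw [Finset.mul_sum]
    refine Finset.sum_le_sum fun p _ => ?_
    rw [Finset.mul_sum]
    exact Finset.sum_le_sum fun k _ => Q3_amp h ha hL0 p k
  have h3 := h1 R hR L hL
  have h4 : |B| ≤ Real.exp (|B| * (R * L)) := by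
    have h5 := Real.add_one_le_exp (|B| * (R * L))
    nlinarith [abs_nonneg B]
  calc ∑ p ∈ ball G (R * L), ∑ k ∈ Finset.range (KK G (R * L)), ‖amp G a L p k‖
      ≤ |B| * ∑ p ∈ ball G (R * L), ∑ k ∈ Finset.range (KK G (R * L)),
          ‖amp G (fun _ => 1) L p k‖ := h2
    _ ≤ Real.exp (|B| * (R * L)) * Real.exp (C1 * (R * L)) := by
        refine mul_le_mul h4 h3 ?_ (Real.exp_pos _).le
        exact Finset.sum_nonneg fun p _ => Finset.sum_nonneg fun k _ => norm_nonneg _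
    _ = Real.exp ((C1 + |B|) * (R * L)) := by
        rw [← Real.exp_add]
        congr 1
        ring

theorem osc_bdd_unif {G : Geo} {κ : ℝ} (h : Ok G κ) (B : ℝ) : ∃ C : ℝ, 0 < C ∧
    ∀ (a : ℝ → ℂ) (R : ℝ), AmpB a B R → 1 ≤ R → ∀ L u : ℝ, 1 ≤ L →
      |Osc G a R L u| ≤ Real.exp (C * (R * L)) := by
  obtain ⟨C, hC, h1⟩ := total_unif h B
  refine ⟨C, hC, fun a R ha hR L u hL => le_trans ?_ (h1 a R ha hR L hL)⟩
  unfold Osc
  refine (Finset.abs_sum_le_sum_abs _ _).trans (Finset.sum_le_sum fun p _ => ?_)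
  refine (Finset.abs_sum_le_sum_abs _ _).trans (Finset.sum_le_sum fun k _ => ?_)
  refine (Complex.abs_re_le_norm _).trans (le_of_eq ?_)
  rw [norm_mul, ← Complex.ofReal_neg, Complex.norm_exp_ofReal_mul_I, mul_one]

theorem sq_unif {G : Geo} {κ : ℝ} (h : Ok G κ) (B : ℝ) : ∃ C : ℝ, 0 < C ∧
    ∀ (a : ℝ → ℂ) (R : ℝ), AmpB a B R → 1 ≤ R → ∀ L T : ℝ, 1 ≤ L → 1 ≤ T →
      Vr G a R L - Real.exp (C * (R * L)) * T ^ (-(1 / 2) : ℝ) ≤
        tm T fun u => Osc G a R L u ^ 2 := by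
  obtain ⟨l0, hl0, hl⟩ := exists_l0 h
  obtain ⟨C1, hC1, hlow⟩ := tri_low (K := |B|) (A := |B|) (l0 := l0) (abs_nonneg B) hl0
  obtain ⟨C2, hC2, hsum⟩ := Q3_one h
  refine ⟨2 * C2 + C1, by linarith, fun a R ha hR L T hL hT => ?_⟩
  have hL0 : 0 < L := by linarith
  have hRL : 1 ≤ R * L := by nlinarith
  set s : Finset (G.P × ℕ) := ball G (R * L) ×ˢ Finset.range (KK G (R * L)) with hs
  set wt : G.P × ℕ → ℝ := fun q => 4 / L * (G.len q.1 / √(G.tw q.1 (q.2 + 1))) with hwt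
  set ν : G.P × ℕ → ℝ := fun q => ((q.2 : ℝ) + 1) * G.len q.1 with hν
  have hwt0 : ∀ q, 0 ≤ wt q := fun q => by
    have hp := h.pos q.1
    simp only [hwt]
    positivity
  have hampeq : ∀ q : G.P × ℕ, (wt q : ℂ) * (fun t : ℝ => a (t / L)) (ν q) = amp G a L q.1 q.2 := by
    intro q
    rfl
  have key := hlow (G.P × ℕ) s wt (fun t : ℝ => a (t / L)) ν (fun q _ => hwt0 q)
    (fun x y => by
      refine (Q3_lip ha (x / L) (y / L)).trans ?_
      have h2 : |x / L - y / L| ≤ |x - y| := by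
        rw [← sub_div, abs_div, abs_of_pos hL0]
        exact div_le_self (abs_nonneg _) hL
      exact mul_le_mul_of_nonneg_left h2 (abs_nonneg B))
    (fun x => Q3_bd ha (x / L))
    (fun q _ => by
      have h1 := hl q.1
      have h2 : (0 : ℝ) ≤ (q.2 : ℝ) := Nat.cast_nonneg _
      show l0 ≤ ((q.2 : ℝ) + 1) * G.len q.1
      nlinarith) T hT
  simp only [hampeq] at key
  have e1 : ∑ q ∈ s, ‖amp G a L q.1 q.2‖ ^ 2
      = ∑ p ∈ ball G (R * L), ∑ k ∈ Finset.range (KK G (R * L)), ‖amp G a L p k‖ ^ 2 := by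
    rw [hs, Finset.sum_product]
  have e3 : ∀ u : ℝ, tri s (fun q => amp G a L q.1 q.2) ν u = Osc G a R L u := by
    intro u
    unfold tri Osc
    rw [hs, Finset.sum_product]
  have e4 : ∑ q ∈ s, wt q ≤ Real.exp (C2 * (R * L)) := by
    refine le_trans (le_of_eq ?_) (hsum R hR L hL)
    rw [hs, Finset.sum_product]
    refine Finset.sum_congr rfl fun p _ => Finset.sum_congr rfl fun k _ => ?_
    unfold amp
    rw [mul_one, Complex.norm_real, Real.norm_of_nonneg (hwt0 (p, k))]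
  rw [e1] at key
  simp only [e3] at key
  refine le_trans ?_ key
  unfold Vr
  have h2 : 0 ≤ ∑ q ∈ s, wt q := Finset.sum_nonneg fun q _ => hwt0 q
  have h3 : (∑ q ∈ s, wt q) ^ 2 ≤ Real.exp (2 * C2 * (R * L)) := by
    have h4 : Real.exp (2 * C2 * (R * L)) = Real.exp (C2 * (R * L)) ^ 2 := by
      rw [← Real.exp_nat_mul]
      congr 1
      push_cast
      ring
    rw [h4]
    gcongr
  have h5 : C1 ≤ Real.exp (C1 * (R * L)) := by
    have h6 := Real.add_one_le_exp (C1 * (R * L))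
    nlinarith
  have h7 : C1 * (∑ q ∈ s, wt q) ^ 2 ≤ Real.exp ((2 * C2 + C1) * (R * L)) := by
    calc C1 * (∑ q ∈ s, wt q) ^ 2
        ≤ Real.exp (C1 * (R * L)) * Real.exp (2 * C2 * (R * L)) := by
          gcongr
      _ = Real.exp ((2 * C2 + C1) * (R * L)) := by
          rw [← Real.exp_add]
          congr 1
          ring
  have h8 : 0 ≤ T ^ (-(1 / 2) : ℝ) := Real.rpow_nonneg (by linarith) _
  have h9 := mul_le_mul_of_nonneg_right h7 h8
  linarith

end NV73
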