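import Pool.Agent.LibNV73.Q2
import Pool.Agent.LibNV73.Q3

/-! Row Q4: the second moment of the statistic from below, uniformly in the amplitude. 45 min.
Plan. As `st_low` (LibEM73/N7) for `r = 2`. On `[√T, T]`: `|st - Osc| ≤ η := C / L + C exp (C R L) T^(-1/4)` (`red_unif`), so
`Osc ^ 2 ≤ (1 + s) st ^ 2 + (1 + 1 / s) η ^ 2` and `η ^ 2 ≤ 2 C^2 (1 / L^2 + exp (2 C R L) T^(-1/2))`. On `[0, √T]` use
`osc_bdd_unif` and the weight `≤ 2 / T`: at most `2 T^(-1/2) exp (2 C R L)`. So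
`tm T (Osc^2) ≤ (1 + s) tm T (st^2) + C' (1 / L + exp (C' R L) T^(-1/2))`, `sq_unif`, and divide by `1 + s`
(`1 / (1 + s) ≥ 1 - s`, `Vr ≥ 0`). Continuity: `st_cont`, `Osc_cont`. -/

open MeasureTheory Set Filter Topology FG33 SC35
open scoped ContDiff

namespace NV73

open GWin EM73

private theorem Q4_tm_add {T : ℝ} (hT : 0 < T) {f : ℝ → ℝ} (hf : Continuous f) (c K : ℝ) :
    tm T (fun u => c * f u + K) = c * tm T f + K := by
  have h1 : tm T (fun u => c * f u + K) = tm T (fun u => c * f u) + tm T (fun _ => K) := by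
    unfold tm
    rw [← mul_add, ← intervalIntegral.integral_add]
    · congr 1
      refine intervalIntegral.integral_congr fun u _ => ?_
      simp only
      ring
    · exact (Continuous.intervalIntegrable (by fun_prop) _ _)
    · exact (Continuous.intervalIntegrable (by fun_prop) _ _)
  rw [h1, tm_mul, tm_const hT]

/-- splitting the interval -/
private theorem Q4_split {T B : ℝ} (hT : 1 ≤ T) {f g : ℝ → ℝ} (hf : Continuous f)
    (hg : Continuous g) (hg0 : ∀ u, 0 ≤ g u) (hB0 : 0 ≤ B)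
    (h1 : ∀ u, 0 ≤ u → u ≤ √T → f u ≤ B) (h2 : ∀ u, √T ≤ u → u ≤ T → f u ≤ g u) :
    tm T f ≤ 2 * B * T ^ (-(1 / 2) : ℝ) + tm T g := by
  have hT0 : 0 < T := by linarith
  have hs0 : 0 ≤ √T := Real.sqrt_nonneg T
  have hs1 : √T ≤ T := by
    rw [Real.sqrt_le_left hT0.le]
    nlinarith
  have hcf : Continuous fun u : ℝ => (T - u) * f u := by fun_prop
  have hcg : Continuous fun u : ℝ => (T - u) * g u := by fun_prop
  have i1 : ∫ u in (0 : ℝ)..√T, (T - u) * f u ≤ √T * (T * B) := by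
    have h3 : ∫ u in (0 : ℝ)..√T, (T - u) * f u ≤ ∫ _ in (0 : ℝ)..√T, T * B := by
      refine intervalIntegral.integral_mono_on hs0 (hcf.intervalIntegrable _ _)
        (continuous_const.intervalIntegrable _ _) fun u hu => ?_
      have h4 := h1 u hu.1 hu.2
      have h5 : 0 ≤ T - u := by linarith [hu.2]
      calc (T - u) * f u ≤ (T - u) * B := mul_le_mul_of_nonneg_left h4 h5
        _ ≤ T * B := mul_le_mul_of_nonneg_right (by linarith [hu.1]) hB0
    refine h3.trans (le_of_eq ?_)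
    rw [intervalIntegral.integral_const, smul_eq_mul, sub_zero]
  have i2 : ∫ u in √T..T, (T - u) * f u ≤ ∫ u in √T..T, (T - u) * g u := by
    refine intervalIntegral.integral_mono_on hs1 (hcf.intervalIntegrable _ _)
      (hcg.intervalIntegrable _ _) fun u hu => ?_
    exact mul_le_mul_of_nonneg_left (h2 u hu.1 hu.2) (by linarith [hu.2])
  have i3 : 0 ≤ ∫ u in (0 : ℝ)..√T, (T - u) * g u := by
    refine intervalIntegral.integral_nonneg hs0 fun u hu => ?_
    exact mul_nonneg (by linarith [hu.2]) (hg0 u)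
  have i4 := intervalIntegral.integral_add_adjacent_intervals
    (hcf.intervalIntegrable (μ := volume) 0 (√T)) (hcf.intervalIntegrable (√T) T)
  have i5 := intervalIntegral.integral_add_adjacent_intervals
    (hcg.intervalIntegrable (μ := volume) 0 (√T)) (hcg.intervalIntegrable (√T) T)
  have i6 : ∫ u in (0 : ℝ)..T, (T - u) * f u ≤
      √T * (T * B) + ∫ u in (0 : ℝ)..T, (T - u) * g u := by
    rw [← i4, ← i5]
    linarith
  unfold tm
  have h7 : 2 / T ^ 2 * (√T * (T * B)) = 2 * B * T ^ (-(1 / 2) : ℝ) := by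
    have h8 : T ^ (-(1 / 2) : ℝ) = (√T)⁻¹ := by
      rw [Real.rpow_neg hT0.le, Real.sqrt_eq_rpow]
    have h9 : √T * √T = T := Real.mul_self_sqrt hT0.le
    have h10 : √T ≠ 0 := (Real.sqrt_pos.2 hT0).ne'
    rw [h8]
    field_simp
    rw [sq, h9]
  calc 2 / T ^ 2 * ∫ u in (0 : ℝ)..T, (T - u) * f u
      ≤ 2 / T ^ 2 * (√T * (T * B) + ∫ u in (0 : ℝ)..T, (T - u) * g u) :=
        mul_le_mul_of_nonneg_left i6 (by positivity)
    _ = _ := by rw [mul_add, h7]

/-- the pointwise inequality -/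
private theorem Q4_sq {x y η s : ℝ} (hs : 0 < s) (hη : 0 ≤ η) (h : |x - y| ≤ η) :
    y ^ 2 ≤ (1 + s) * x ^ 2 + (1 + 1 / s) * η ^ 2 := by
  have h1 : |y| ≤ |x| + η := by
    have h2 := abs_sub_abs_le_abs_sub y x
    rw [abs_sub_comm] at h2
    linarith
  have h2 : y ^ 2 ≤ (|x| + η) ^ 2 := by
    rw [← sq_abs y]
    exact pow_le_pow_left₀ (abs_nonneg _) h1 2
  have h3 : 2 * (|x| * η) ≤ s * x ^ 2 + 1 / s * η ^ 2 := by
    have h4 : s * x ^ 2 + 1 / s * η ^ 2 - 2 * (|x| * η) = 1 / s * (s * |x| - η) ^ 2 := by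
      rw [← sq_abs x]
      field_simp
      ring
    have h5 : 0 ≤ 1 / s * (s * |x| - η) ^ 2 := by positivity
    linarith
  have h4 : (|x| + η) ^ 2 = x ^ 2 + 2 * (|x| * η) + η ^ 2 := by
    rw [← sq_abs x]
    ring
  linarith

private theorem Q4_Vr (G : Geo) (a : ℝ → ℂ) (R L : ℝ) : 0 ≤ Vr G a R L := by
  unfold Vr
  positivity

theorem st_unif {G : Geo} {κ : ℝ} (h : Ok G κ) {lev : ℕ → ℝ} (hl : Lev lev) (hT : Trace G lev)
    (B : ℝ) {s : ℝ} (hs : 0 < s) (hs1 : s < 1) : ∃ C : ℝ, 0 < C ∧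
    ∀ (a : ℝ → ℂ) (R : ℝ), AmpB a B R → 1 ≤ R → ∀ L T : ℝ, 1 ≤ L → 1 ≤ T →
      (1 - s) * Vr G a R L - C * (1 / L + Real.exp (C * (R * L)) * T ^ (-(1 / 2) : ℝ)) ≤
        tm T fun u => st lev a L u ^ 2 := by
  obtain ⟨C1, hC1, hred⟩ := red_unif h hl hT B
  obtain ⟨C2, hC2, hosc⟩ := osc_bdd_unif h B
  obtain ⟨C3, hC3, hsq⟩ := sq_unif h B
  obtain ⟨k, hk⟩ : ∃ k, k = (1 + 1 / s) * (2 * C1 ^ 2) := ⟨_, rfl⟩
  have hk0 : 0 < k := by
    rw [hk]
    positivity
  obtain ⟨C0, hC0⟩ : ∃ C0, C0 = 2 * C1 + 2 * C2 + C3 + 3 + k := ⟨_, rfl⟩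
  have hC00 : 0 < C0 := by
    rw [hC0]
    positivity
  refine ⟨C0, hC00, fun a R ha hR L T hL hT1 => ?_⟩
  have hT0 : 0 < T := by linarith
  have hL0 : 0 < L := by linarith
  have hR0 : 0 < R := by linarith
  have hRL : 0 < R * L := mul_pos hR0 hL0
  obtain ⟨η, hη⟩ : ∃ η : ℝ, η = C1 / L + C1 * (Real.exp (C1 * (R * L)) * T ^ (-(1 / 4) : ℝ)) :=
    ⟨_, rfl⟩
  have hη0 : 0 ≤ η := by
    rw [hη]
    positivity
  obtain ⟨X, hX⟩ : ∃ X : ℝ, X = Real.exp (C0 * (R * L)) * T ^ (-(1 / 2) : ℝ) := ⟨_, rfl⟩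
  have hX0 : 0 ≤ X := by
    rw [hX]
    positivity
  have hexp : ∀ c : ℝ, c ≤ C0 → Real.exp (c * (R * L)) * T ^ (-(1 / 2) : ℝ) ≤ X := by
    intro c hc
    rw [hX]
    gcongr
  have hη2 : (1 + 1 / s) * η ^ 2 ≤ k * (1 / L + X) := by
    have h1 : η ^ 2 ≤ 2 * C1 ^ 2 * (1 / L + X) := by
      have h2 : η ^ 2 ≤ 2 * ((C1 / L) ^ 2 +
          (C1 * (Real.exp (C1 * (R * L)) * T ^ (-(1 / 4) : ℝ))) ^ 2) := by
        rw [hη]
        nlinarith [sq_nonneg (C1 / L - C1 * (Real.exp (C1 * (R * L)) * T ^ (-(1 / 4) : ℝ)))]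
      have h3 : (C1 / L) ^ 2 ≤ C1 ^ 2 * (1 / L) := by
        rw [div_pow, mul_one_div]
        refine div_le_div_of_nonneg_left (by positivity) hL0 ?_
        nlinarith
      have h4 : (C1 * (Real.exp (C1 * (R * L)) * T ^ (-(1 / 4) : ℝ))) ^ 2 ≤ C1 ^ 2 * X := by
        have h5 : (C1 * (Real.exp (C1 * (R * L)) * T ^ (-(1 / 4) : ℝ))) ^ 2 =
            C1 ^ 2 * (Real.exp (2 * C1 * (R * L)) * T ^ (-(1 / 2) : ℝ)) := by
          rw [mul_pow, mul_pow, ← Real.exp_nat_mul, ← Real.rpow_natCast (T ^ (-(1 / 4) : ℝ)),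
            ← Real.rpow_mul hT0.le]
          congr 2
          · congr 1
            push_cast
            ring
          · congr 1
            push_cast
            norm_num
        rw [h5]
        refine mul_le_mul_of_nonneg_left (hexp _ ?_) (by positivity)
        rw [hC0]
        linarith
      linarith
    rw [hk]
    calc (1 + 1 / s) * η ^ 2 ≤ (1 + 1 / s) * (2 * C1 ^ 2 * (1 / L + X)) := by gcongr
      _ = _ := by ring
  have hcS : Continuous fun u => st lev a L u ^ 2 := (st_cont ha.amp hl hL0).pow 2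
  have hcO : Continuous fun u => Osc G a R L u ^ 2 := (Osc_cont G a R L).pow 2
  have hpt : ∀ u, √T ≤ u → u ≤ T →
      Osc G a R L u ^ 2 ≤ (1 + s) * st lev a L u ^ 2 + (1 + 1 / s) * η ^ 2 := by
    intro u hu1 hu2
    have hs2 : 1 ≤ √T := by
      rw [Real.one_le_sqrt]
      exact hT1
    have hu : 1 ≤ u := hs2.trans hu1
    have h5 := hred a R ha hR L u hL hu
    have h6 : u ^ (-(1 / 2) : ℝ) ≤ T ^ (-(1 / 4) : ℝ) := by
      have h7 : u ^ (-(1 / 2) : ℝ) ≤ (√T) ^ (-(1 / 2) : ℝ) :=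
        Real.rpow_le_rpow_of_nonpos (by linarith) hu1 (by norm_num)
      refine h7.trans (le_of_eq ?_)
      rw [Real.sqrt_eq_rpow, ← Real.rpow_mul hT0.le]
      norm_num
    refine Q4_sq hs hη0 (h5.trans ?_)
    rw [hη, mul_assoc]
    gcongr
  have hlow : ∀ u, 0 ≤ u → u ≤ √T → Osc G a R L u ^ 2 ≤ Real.exp (2 * C2 * (R * L)) := by
    intro u _ _
    have h5 := hosc a R ha hR L u hL
    have h6 : Real.exp (2 * C2 * (R * L)) = Real.exp (C2 * (R * L)) ^ 2 := by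
      rw [← Real.exp_nat_mul]
      congr 1
      push_cast
      ring
    rw [h6, ← sq_abs]
    exact pow_le_pow_left₀ (abs_nonneg _) h5 2
  have hmain := Q4_split hT1 hcO (g := fun u => (1 + s) * st lev a L u ^ 2 + (1 + 1 / s) * η ^ 2)
    (by fun_prop) (fun u => by positivity) (by positivity) hlow hpt
  rw [Q4_tm_add hT0 hcS] at hmain
  have h1 := hsq a R ha hR L T hL hT1
  have h2 := hexp C3 (by rw [hC0]; linarith)
  have h3 := hexp (2 * C2) (by rw [hC0]; linarith)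
  have hV := Q4_Vr G a R L
  rw [← hX]
  obtain ⟨M, hM⟩ : ∃ M, M = tm T fun u => st lev a L u ^ 2 := ⟨_, rfl⟩
  rw [← hM] at hmain ⊢
  have h4 : Vr G a R L - (3 * X + k * (1 / L + X)) ≤ (1 + s) * M := by
    have h5 : 2 * Real.exp (2 * C2 * (R * L)) * T ^ (-(1 / 2) : ℝ) ≤ 2 * X := by
      rw [mul_assoc]
      linarith
    linarith
  have h6 : 0 ≤ 1 / L := by positivity
  have h7 : 3 * X + k * (1 / L + X) ≤ C0 * (1 / L + X) := by
    have h8 : (3 + k) * (1 / L + X) ≤ C0 * (1 / L + X) := by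
      refine mul_le_mul_of_nonneg_right ?_ (by positivity)
      rw [hC0]
      linarith
    linarith
  have h8 : 0 ≤ C0 * (1 / L + X) := by positivity
  have h9 : (1 + s) * ((1 - s) * Vr G a R L - C0 * (1 / L + X)) ≤ (1 + s) * M := by
    refine le_trans ?_ h4
    nlinarith [mul_nonneg (sq_nonneg s) hV, mul_nonneg hs.le h8]
  exact le_of_mul_le_mul_left h9 (by linarith)

end NV73
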